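import Pool.Agent.Helper28.TK.StK

/-! Project TK (MP_3c9520_nt), module KR0: trace relation for the Fricke transform, weight `k`. -/

set_option autoImplicit false

open UpperHalfPlane CongruenceSubgroup
open scoped MatrixGroups

namespace Pool.Agent.Helper11.TK

open Pool.Agent.Helper14.CV (G0)
open Pool.Agent.Helper14.WK
open Pool.Agent.Helper28.TK

private theorem im_W (r : ℝ) (hr : 0 < r) (z : ℂ) (hz : 0 < z.im) :
    0 < (-1 / ((r : ℂ) * z)).im := by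
  have hw : 0 < ((r : ℂ) * z).im := by
    rw [Complex.im_ofReal_mul r z]
    exact mul_pos hr hz
  have hw0 : (r : ℂ) * z ≠ 0 := by
    intro h0
    rw [h0, Complex.zero_im] at hw
    exact lt_irrefl _ hw
  have e : -1 / ((r : ℂ) * z) = -((r : ℂ) * z)⁻¹ := by ring
  rw [e, Complex.neg_im, Complex.inv_im]
  have hn : 0 < Complex.normSq ((r : ℂ) * z) := Complex.normSq_pos.2 hw0
  have : 0 < ((r : ℂ) * z).im / Complex.normSq ((r : ℂ) * z) := div_pos hw hn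
  have e2 : -(-((r : ℂ) * z).im / Complex.normSq ((r : ℂ) * z)) =
      ((r : ℂ) * z).im / Complex.normSq ((r : ℂ) * z) := by ring
  rw [e2]
  exact this

private theorem coreA (h2 : SKN2) (h3 : SKN3) (p m : ℕ) (hp : p.Prime) (hm : 1 ≤ m) (A : ℕ)
    (K : ℕ) (hK : K = p * p ^ m) (f : CuspForm (G0 K) (2 * A + 2)) (t : ℕ → ℂ)
    (hecke : ∀ l : ℕ, l.Prime → l ≠ p → HeckeEigK f l (t l))
    (new : ∀ g : CuspForm (G0 (p ^ m)) (2 * A + 2),
      (∀ l : ℕ, l.Prime → l ≠ p → HeckeEigK g l (t l)) → g = 0) :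
    ∀ z : ℂ, 0 < z.im → ∑ i ∈ Finset.range p, ((i * (p : ℂ) ^ m * z + 1) ^ (2 * A + 2))⁻¹ *
      fzK f (z / (i * (p : ℂ) ^ m * z + 1)) = 0 := by
  subst hK
  have hne : NeZero (p ^ m) := ⟨pow_ne_zero m hp.ne_zero⟩
  have hne2 : NeZero (p * p ^ m) := ⟨mul_ne_zero hp.ne_zero (pow_ne_zero m hp.ne_zero)⟩
  have hd : p ∣ p ^ m := dvd_pow_self p (by omega)
  obtain ⟨g, hg⟩ := h2 p (p ^ m) hne hne2 A f hp hd
  have hg0 : g = 0 := by
    refine new g fun l hl hlp => ?_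
    refine h3 p (p ^ m) hne hne2 A f g l _ hp hd hl hlp (hecke l hl hlp) ?_ hg
    intro hdl
    exact hlp ((Nat.prime_dvd_prime_iff_eq hl hp).1 (hl.dvd_of_dvd_pow hdl))
  intro z hz
  have h4 : fzK g z = 0 := by
    rw [hg0]
    rfl
  have h5 := hg z hz
  rw [h4] at h5
  rw [h5]
  refine Finset.sum_congr rfl fun i _ => ?_
  rw [Nat.cast_pow]

private theorem coreB (p m : ℕ) (hp : p.Prime) (A : ℕ) (K : ℕ) (hK : K = p * p ^ m)
    (f g : CuspForm (G0 K) (2 * A + 2))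
    (hA : ∀ z : ℂ, 0 < z.im → ∑ i ∈ Finset.range p, ((i * (p : ℂ) ^ m * z + 1) ^ (2 * A + 2))⁻¹ *
      fzK f (z / (i * (p : ℂ) ^ m * z + 1)) = 0)
    (hW : ∀ z : ℂ, 0 < z.im → fzK f (-1 / (K * z)) =
      (-1) ^ (A + 1) * (K : ℂ) ^ (A + 1) * z ^ (2 * A + 2) * fzK g z) :
    ∀ z : ℂ, 0 < z.im → ∑ i ∈ Finset.range p, fzK g (z - i / p) = 0 := by
  intro z hz
  have hp0 : (p : ℂ) ≠ 0 := by exact_mod_cast hp.ne_zero
  have hpm : (p : ℂ) ^ m ≠ 0 := pow_ne_zero m hp0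
  have hKc : (K : ℂ) = p * (p : ℂ) ^ m := by rw [hK]; push_cast; ring
  have hK0 : (K : ℂ) ≠ 0 := by rw [hKc]; exact mul_ne_zero hp0 hpm
  have hKpos : (0 : ℝ) < (K : ℝ) := by
    have h1 : 0 < p ^ m := pow_pos hp.pos m
    have h2 : 0 < K := by rw [hK]; exact Nat.mul_pos hp.pos h1
    exact_mod_cast h2
  have hz0 : z ≠ 0 := by
    intro h0
    rw [h0, Complex.zero_im] at hz
    exact lt_irrefl _ hz
  have hzi : ∀ i : ℕ, 0 < (z - i / p).im := by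
    intro i
    have e : ((i : ℂ) / p).im = 0 := by
      have e1 : ((i : ℂ) / p) = (((i : ℝ) / p : ℝ) : ℂ) := by push_cast; rfl
      rw [e1, Complex.ofReal_im]
    rw [Complex.sub_im, e, sub_zero]
    exact hz
  have hzi0 : ∀ i : ℕ, z - (i : ℂ) / p ≠ 0 := by
    intro i h0
    have h1 := hzi i
    rw [h0, Complex.zero_im] at h1
    exact lt_irrefl _ h1
  have hwim : 0 < (-1 / ((K : ℂ) * z)).im := by
    have := im_W (K : ℝ) hKpos z hz
    exact_mod_cast this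
  have h1 := hA _ hwim
  have hc : (-1 : ℂ) ^ (A + 1) * (K : ℂ) ^ (A + 1) * z ^ (2 * A + 2) ≠ 0 :=
    mul_ne_zero (mul_ne_zero (pow_ne_zero _ (neg_ne_zero.2 one_ne_zero)) (pow_ne_zero _ hK0))
      (pow_ne_zero _ hz0)
  have h2 : ∑ i ∈ Finset.range p, ((i * (p : ℂ) ^ m * (-1 / ((K : ℂ) * z)) + 1) ^ (2 * A + 2))⁻¹ *
      fzK f ((-1 / ((K : ℂ) * z)) / (i * (p : ℂ) ^ m * (-1 / ((K : ℂ) * z)) + 1)) =
      ((-1 : ℂ) ^ (A + 1) * (K : ℂ) ^ (A + 1) * z ^ (2 * A + 2)) *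
        ∑ i ∈ Finset.range p, fzK g (z - i / p) := by
    rw [Finset.mul_sum]
    refine Finset.sum_congr rfl fun i _ => ?_
    have e1 : (i : ℂ) * (p : ℂ) ^ m * (-1 / ((K : ℂ) * z)) + 1 = (z - i / p) / z := by
      rw [hKc]
      field_simp
      ring
    have e2 : (-1 / ((K : ℂ) * z)) / ((z - i / p) / z) = -1 / ((K : ℂ) * (z - i / p)) := by
      have h3 := hzi0 i
      rw [div_div_div_eq]
      rw [div_eq_div_iff (mul_ne_zero (mul_ne_zero hK0 hz0) h3) (mul_ne_zero hK0 h3)]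
      ring
    rw [e1, e2, hW _ (hzi i)]
    have h4 : (((z - (i : ℂ) / p) / z) ^ (2 * A + 2))⁻¹ * (z - (i : ℂ) / p) ^ (2 * A + 2) =
        z ^ (2 * A + 2) := by
      rw [div_pow, inv_div, div_mul_cancel₀ _ (pow_ne_zero _ (hzi0 i))]
    calc (((z - (i : ℂ) / p) / z) ^ (2 * A + 2))⁻¹ *
          ((-1) ^ (A + 1) * (K : ℂ) ^ (A + 1) * (z - (i : ℂ) / p) ^ (2 * A + 2) *
            fzK g (z - i / p))
        = ((-1) ^ (A + 1) * (K : ℂ) ^ (A + 1)) *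
          ((((z - (i : ℂ) / p) / z) ^ (2 * A + 2))⁻¹ * (z - (i : ℂ) / p) ^ (2 * A + 2)) *
            fzK g (z - i / p) := by ring
      _ = _ := by rw [h4]
  rw [h2] at h1
  rcases mul_eq_zero.1 h1 with h | h
  · exact absurd h hc
  · exact h

theorem hKR0 : StKR0 := by
  intro _hm h2 h3 p n hne A f g t hp hn hfg hecke hnew z hz
  obtain ⟨m, rfl⟩ : ∃ m, n = m + 1 := ⟨n - 1, by omega⟩
  have hA := coreA h2 h3 p m hp (by omega) A (p ^ (m + 1)) (pow_succ' p m) f t hecke hnew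
  have hp0 : (p : ℂ) ≠ 0 := by exact_mod_cast hp.ne_zero
  have hK : ((p ^ (m + 1) : ℕ) : ℂ) ≠ 0 := by
    push_cast
    exact pow_ne_zero _ hp0
  have hW : ∀ z : ℂ, 0 < z.im → fzK f (-1 / ((p ^ (m + 1) : ℕ) * z)) =
      (-1) ^ (A + 1) * ((p ^ (m + 1) : ℕ) : ℂ) ^ (A + 1) * z ^ (2 * A + 2) * fzK g z := by
    intro v hv
    have hv0 : v ≠ 0 := by
      intro h0
      rw [h0, Complex.zero_im] at hv
      exact lt_irrefl _ hv
    have h := hfg v hv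
    have hs : ((-1 : ℂ) ^ (A + 1)) * (-1) ^ (A + 1) = 1 := by
      rw [← mul_pow]
      norm_num
    have hN : ((p ^ (m + 1) : ℕ) : ℂ) ^ (A + 1) * v ^ (2 * A + 2) ≠ 0 :=
      mul_ne_zero (pow_ne_zero _ hK) (pow_ne_zero _ hv0)
    rw [h]
    calc fzK f (-1 / ((p ^ (m + 1) : ℕ) * v))
        = ((-1 : ℂ) ^ (A + 1) * (-1) ^ (A + 1)) *
          ((((p ^ (m + 1) : ℕ) : ℂ) ^ (A + 1) * v ^ (2 * A + 2)) *
            (((p ^ (m + 1) : ℕ) : ℂ) ^ (A + 1) * v ^ (2 * A + 2))⁻¹) *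
          fzK f (-1 / ((p ^ (m + 1) : ℕ) * v)) := by
            rw [hs, mul_inv_cancel₀ hN, one_mul, one_mul]
      _ = _ := by ring
  have hB := coreB p m hp A (p ^ (m + 1)) (pow_succ' p m) f g hA hW
  have hz' : 0 < (z + ((p - 1 : ℕ) : ℂ) / p).im := by
    have e : (((p - 1 : ℕ) : ℂ) / p).im = 0 := by
      have e1 : (((p - 1 : ℕ) : ℂ) / p) = ((((p - 1 : ℕ) : ℝ) / p : ℝ) : ℂ) := by push_cast; rfl
      rw [e1, Complex.ofReal_im]
    rw [Complex.add_im, e, add_zero]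
    exact hz
  have h4 := hB _ hz'
  rw [← Finset.sum_range_reflect] at h4
  rw [← h4]
  refine Finset.sum_congr rfl fun i hi => ?_
  have hi' := Finset.mem_range.1 hi
  congr 1
  have e2 : ((p - 1 - i : ℕ) : ℂ) = ((p - 1 : ℕ) : ℂ) - i := by
    rw [Nat.cast_sub (by omega)]
  rw [e2]
  field_simp
  ring

end Pool.Agent.Helper11.TK
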